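import Mathlib

set_option autoImplicit false

/-!
# No colour-degree condition forces a majority 3-partition

For every `k` there is a 2-edge-coloured graph with all red and blue degrees at least `k` which has
no majority 3-partition.

The construction has four levels.  Level `A` has `3m` vertices, so a set `K` of `m` of them lies in
one part `V₁`.  Every `m`-set `K` has a block of `2k` vertices of level `B`, joined to `K` in red;
they avoid `V₁`, so a set `L` of `k` of them lies in one part `V₂`.  Every pair `(K, L)` has `k`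
vertices of level `C`, joined to `K` in red and to `L` in blue; all of them lie in the third part
`V₃`.  Finally every pair `(K, L)` has a gadget of four vertices of level `D` which has no majority
3-partition in this situation.
-/

namespace Pool.Agent.Results.MP_0e3695_co.NoThreshold

/-- The graphs `R` (red edges) and `B` (blue edges) on `V` form a 2-edge-coloured graph if they have
no common edge.  `p : V → Fin 3` is a majority 3-partition if every vertex has at most half of its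
red neighbours and at most half of its blue neighbours in its own part. -/
def IsMajority {V : Type} (R B : SimpleGraph V) (p : V → Fin 3) : Prop :=
  ∀ v, 2 * {w | R.Adj v w ∧ p w = p v}.ncard ≤ {w | R.Adj v w}.ncard ∧
    2 * {w | B.Adj v w ∧ p w = p v}.ncard ≤ {w | B.Adj v w}.ncard

lemma force {V : Type} [Finite V] {S T X Y : Set V} (hX : X ⊆ T) (hS : S ⊆ X ∪ Y)
    (hc : Y.ncard < X.ncard) (h : 2 * T.ncard ≤ S.ncard) : False := by
  have h1 := Set.ncard_le_ncard hX (Set.toFinite T)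
  have h2 := (Set.ncard_le_ncard hS (Set.toFinite _)).trans (Set.ncard_union_le X Y)
  omega

section

variable (m k : ℕ)

/-- The `m`-subsets of level `A`. -/
abbrev KT : Type := {K : Finset (Fin (3 * m)) // K.card = m}

/-- The `k`-subsets of a block of level `B`. -/
abbrev LT : Type := {L : Finset (Fin (2 * k)) // L.card = k}

/-- The vertices. -/
inductive Vtx : Type
  | a (x : Fin (3 * m))
  | b (K : KT m) (j : Fin (2 * k))
  | c (K : KT m) (L : LT k) (i : Fin k)
  | d (K : KT m) (L : LT k) (g : Fin 4)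

end

variable {m k : ℕ}

instance : Finite (Vtx m k) := by
  let e : Vtx m k → Fin (3 * m) ⊕ (KT m × Fin (2 * k)) ⊕ (KT m × LT k × Fin k) ⊕
      (KT m × LT k × Fin 4) := fun v => match v with
    | .a x => .inl x
    | .b K j => .inr (.inl (K, j))
    | .c K L i => .inr (.inr (.inl (K, L, i)))
    | .d K L g => .inr (.inr (.inr (K, L, g)))
  refine Finite.of_injective e ?_
  intro v w h
  cases v <;> cases w <;> simp_all [e]

open Vtx

/-- Red edges, from the upper vertex to the lower one. -/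
def rr : Vtx m k → Vtx m k → Prop
  | b K _, a x => x ∈ K.1
  | c K _ _, a x => x ∈ K.1
  | d K _ g, a x => (g = 0 ∨ g = 1) ∧ x ∈ K.1
  | d K L g, b K' j => (g = 2 ∨ g = 3) ∧ K' = K ∧ j ∈ L.1
  | d K L g, c K' L' _ => (g = 2 ∨ g = 3) ∧ K' = K ∧ L' = L
  | d K L g, d K' L' g' => g = 0 ∧ (g' = 2 ∨ g' = 3) ∧ K' = K ∧ L' = L
  | _, _ => False

/-- Blue edges, from the upper vertex to the lower one. -/
def bb : Vtx m k → Vtx m k → Prop
  | c K L _, b K' j => K' = K ∧ j ∈ L.1
  | d K _ g, a x => (g = 2 ∨ g = 3) ∧ x ∈ K.1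
  | d K L g, b K' j => (g = 0 ∨ g = 1) ∧ K' = K ∧ j ∈ L.1
  | d K L g, c K' L' _ => (g = 0 ∨ g = 1) ∧ K' = K ∧ L' = L
  | d K L g, d K' L' g' => g = 1 ∧ (g' = 0 ∨ g' = 2 ∨ g' = 3) ∧ K' = K ∧ L' = L
  | _, _ => False

/-- The red graph. -/
def red (m k : ℕ) : SimpleGraph (Vtx m k) where
  Adj v w := rr v w ∨ rr w v
  symm := ⟨fun _ _ h => h.symm⟩
  loopless := ⟨fun v h => by
    cases v <;> simp only [rr, or_self] at h
    obtain ⟨rfl, h, -⟩ := h
    revert h; decide⟩

/-- The blue graph. -/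
def blue (m k : ℕ) : SimpleGraph (Vtx m k) where
  Adj v w := bb v w ∨ bb w v
  symm := ⟨fun _ _ h => h.symm⟩
  loopless := ⟨fun v h => by
    cases v <;> simp only [bb, or_self] at h
    obtain ⟨rfl, h, -⟩ := h
    revert h; decide⟩

lemma disj : Disjoint (red m k) (blue m k) := by
  rw [disjoint_iff]
  ext v w
  simp only [SimpleGraph.inf_adj, SimpleGraph.bot_adj, iff_false, not_and]
  intro h1 h2
  simp only [red, blue] at h1 h2
  cases v <;> cases w <;> simp only [rr, bb, or_false, false_or, or_self] at h1 h2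
  · obtain ⟨h1, -⟩ := h1
    obtain ⟨h2, -⟩ := h2
    omega
  · obtain ⟨h1, -⟩ := h1
    obtain ⟨h2, -⟩ := h2
    omega
  · obtain ⟨h1, -⟩ := h1
    obtain ⟨h2, -⟩ := h2
    omega
  · obtain ⟨h1, -⟩ := h1
    obtain ⟨h2, -⟩ := h2
    omega
  · obtain ⟨h1, -⟩ := h1
    obtain ⟨h2, -⟩ := h2
    omega
  · obtain ⟨h1, -⟩ := h1
    obtain ⟨h2, -⟩ := h2
    omega
  · rcases h1 with ⟨h1, h1', -⟩ | ⟨h1, h1', -⟩ <;> rcases h2 with ⟨h2, h2', -⟩ | ⟨h2, h2', -⟩ <;>
      omega

/-- The copy of `K` in level `A`. -/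
def AK (K : KT m) : Set (Vtx m k) := a '' (K.1 : Set (Fin (3 * m)))

/-- The copy of `L` in level `B`. -/
def BL (K : KT m) (L : LT k) : Set (Vtx m k) := b K '' (L.1 : Set (Fin (2 * k)))

/-- The `k` vertices of level `C` which belong to `(K, L)`. -/
def CK (K : KT m) (L : LT k) : Set (Vtx m k) := Set.range (c K L)

lemma ncard_AK (K : KT m) : (AK K : Set (Vtx m k)).ncard = m := by
  rw [AK, Set.ncard_image_of_injective _ (fun x y h => by simpa using h), Set.ncard_coe_finset, K.2]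

lemma ncard_BL (K : KT m) (L : LT k) : (BL K L).ncard = k := by
  rw [BL, Set.ncard_image_of_injective _ (fun x y h => by simpa using h), Set.ncard_coe_finset, L.2]

lemma ncard_CK (K : KT m) (L : LT k) : (CK K L).ncard = k := by
  rw [CK, ← Set.image_univ, Set.ncard_image_of_injective _ (fun x y h => by simpa using h),
    Set.ncard_univ, Nat.card_eq_fintype_card, Fintype.card_fin]

lemma le_card_LT (k : ℕ) : k ≤ Nat.card (LT k) := by
  have h : Nat.card (LT k) = (2 * k).choose k := by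
    rw [Nat.card_eq_fintype_card, Fintype.card_finset_len, Fintype.card_fin]
  rw [h]
  have h1 := Nat.choose_le_middle 1 (2 * k)
  rw [Nat.choose_one_right, Nat.mul_div_cancel_left k (by norm_num)] at h1
  omega

lemma le_red {S : Set (Vtx m k)} {v : Vtx m k} (h : ∀ w ∈ S, (red m k).Adj v w) :
    S.ncard ≤ {w | (red m k).Adj v w}.ncard :=
  Set.ncard_le_ncard h (Set.toFinite _)

lemma le_blue {S : Set (Vtx m k)} {v : Vtx m k} (h : ∀ w ∈ S, (blue m k).Adj v w) :
    S.ncard ≤ {w | (blue m k).Adj v w}.ncard :=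
  Set.ncard_le_ncard h (Set.toFinite _)

lemma degrees (hm : k ≤ m) (hk : 1 ≤ k) (v : Vtx m k) :
    k ≤ {w | (red m k).Adj v w}.ncard ∧ k ≤ {w | (blue m k).Adj v w}.ncard := by
  cases v with
  | a x =>
    obtain ⟨K, hxK, -, hK⟩ := Finset.exists_subsuperset_card_eq (Finset.subset_univ {x})
      (n := m) (by simp; omega) (by simp; omega)
    have hx : x ∈ K := hxK (Finset.mem_singleton_self x)
    constructor
    · refine le_trans ?_ (le_red (S := Set.range (b ⟨K, hK⟩)) ?_)
      · rw [← Set.image_univ, Set.ncard_image_of_injective _ (fun x y h => by simpa using h),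
          Set.ncard_univ, Nat.card_eq_fintype_card, Fintype.card_fin]
        omega
      · rintro _ ⟨j, rfl⟩
        exact Or.inr hx
    · refine le_trans ?_ (le_blue (S := Set.range (fun L => d ⟨K, hK⟩ L 2)) ?_)
      · rw [← Set.image_univ, Set.ncard_image_of_injective _ (fun x y h => by simpa using h),
          Set.ncard_univ]
        exact le_card_LT k
      · rintro _ ⟨L, rfl⟩
        exact Or.inr ⟨Or.inl rfl, hx⟩
  | b K j =>
    constructor
    · refine le_trans ?_ (le_red (S := AK K) ?_)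
      · rwa [ncard_AK]
      · rintro _ ⟨x, hx, rfl⟩
        exact Or.inl hx
    · obtain ⟨L, hjL, -, hL⟩ := Finset.exists_subsuperset_card_eq (Finset.subset_univ {j})
        (n := k) (by simp; omega) (by simp; omega)
      have hj : j ∈ L := hjL (Finset.mem_singleton_self j)
      refine le_trans ?_ (le_blue (S := CK K ⟨L, hL⟩) ?_)
      · rw [ncard_CK]
      · rintro _ ⟨i, rfl⟩
        exact Or.inr ⟨rfl, hj⟩
  | c K L i =>
    constructor
    · refine le_trans ?_ (le_red (S := AK K) ?_)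
      · rwa [ncard_AK]
      · rintro _ ⟨x, hx, rfl⟩
        exact Or.inl hx
    · refine le_trans ?_ (le_blue (S := BL K L) ?_)
      · rw [ncard_BL]
      · rintro _ ⟨x, hx, rfl⟩
        exact Or.inl ⟨rfl, hx⟩
  | d K L g =>
    have hg : (g = 0 ∨ g = 1) ∨ (g = 2 ∨ g = 3) := by omega
    rcases hg with hg | hg
    · constructor
      · refine le_trans ?_ (le_red (S := AK K) ?_)
        · rwa [ncard_AK]
        · rintro _ ⟨x, hx, rfl⟩
          exact Or.inl ⟨hg, hx⟩
      · refine le_trans ?_ (le_blue (S := BL K L) ?_)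
        · rw [ncard_BL]
        · rintro _ ⟨x, hx, rfl⟩
          exact Or.inl ⟨hg, rfl, hx⟩
    · constructor
      · refine le_trans ?_ (le_red (S := BL K L) ?_)
        · rw [ncard_BL]
        · rintro _ ⟨x, hx, rfl⟩
          exact Or.inl ⟨hg, rfl, hx⟩
      · refine le_trans ?_ (le_blue (S := AK K) ?_)
        · rwa [ncard_AK]
        · rintro _ ⟨x, hx, rfl⟩
          exact Or.inl ⟨hg, hx⟩

/-- If more than half of the red neighbours lie in part `i`, the vertex does not. -/
lemma not_red {p : Vtx m k → Fin 3} (hp : IsMajority (red m k) (blue m k) p) {v : Vtx m k}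
    {i : Fin 3} {X Y : Set (Vtx m k)} (hX : ∀ w ∈ X, (red m k).Adj v w ∧ p w = i)
    (hS : ∀ w, (red m k).Adj v w → w ∈ X ∨ w ∈ Y) (hc : Y.ncard < X.ncard) : p v ≠ i := by
  rintro rfl
  exact force (T := {w | (red m k).Adj v w ∧ p w = p v}) (S := {w | (red m k).Adj v w}) hX hS hc
    (hp v).1

/-- If more than half of the blue neighbours lie in part `i`, the vertex does not. -/
lemma not_blue {p : Vtx m k → Fin 3} (hp : IsMajority (red m k) (blue m k) p) {v : Vtx m k}
    {i : Fin 3} {X Y : Set (Vtx m k)} (hX : ∀ w ∈ X, (blue m k).Adj v w ∧ p w = i)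
    (hS : ∀ w, (blue m k).Adj v w → w ∈ X ∨ w ∈ Y) (hc : Y.ncard < X.ncard) : p v ≠ i := by
  rintro rfl
  exact force (T := {w | (blue m k).Adj v w ∧ p w = p v}) (S := {w | (blue m k).Adj v w}) hX hS hc
    (hp v).2

/-- A set of at least `3m` (`2k`) vertices in three (two) parts has `m` (`k`) in one part. -/
lemma exists_part {α : Type} [Fintype α] [DecidableEq α] (q : α → Fin 3) (s : Finset (Fin 3))
    (hq : ∀ x, q x ∈ s) (n : ℕ) (hn : s.card * n ≤ Fintype.card α) (hs : s.Nonempty) :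
    ∃ i ∈ s, ∃ K : Finset α, K.card = n ∧ ∀ x ∈ K, q x = i := by
  obtain ⟨i, hi, h⟩ := Finset.exists_le_card_fiber_of_mul_le_card_of_maps_to
    (s := (Finset.univ : Finset α)) (t := s) (f := q) (fun x _ => hq x) hs
    (n := n) (by simpa using hn)
  obtain ⟨K, hK, hKc⟩ := Finset.exists_subset_card_eq h
  refine ⟨i, hi, K, hKc, fun x hx => ?_⟩
  simpa using hK hx

lemma mem_AK {K : KT m} {w : Vtx m k} : w ∈ AK K ↔ ∃ x ∈ K.1, a x = w := Iff.rfl

lemma mem_BL {K : KT m} {L : LT k} {w : Vtx m k} : w ∈ BL K L ↔ ∃ x ∈ L.1, b K x = w := Iff.rfl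

lemma mem_CK {K : KT m} {L : LT k} {w : Vtx m k} : w ∈ CK K L ↔ ∃ i, c K L i = w := Iff.rfl

lemma red_b {K : KT m} {j : Fin (2 * k)} {w : Vtx m k} (h : (red m k).Adj (b K j) w) :
    w ∈ AK K ∨ w ∈ Set.range (fun x : LT k × Fin 4 => d K x.1 x.2) := by
  simp only [red] at h
  cases w with
  | a x => exact Or.inl ⟨x, h.elim id False.elim, rfl⟩
  | b K' j' => simp [rr] at h
  | c K' L' i => simp [rr] at h
  | d K' L' g =>
    simp only [rr, false_or] at h
    obtain ⟨-, rfl, -⟩ := h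
    exact Or.inr ⟨(L', g), rfl⟩

lemma red_c {K : KT m} {L : LT k} {i : Fin k} {w : Vtx m k} (h : (red m k).Adj (c K L i) w) :
    w ∈ AK K ∨ w ∈ ({d K L 2, d K L 3} : Set (Vtx m k)) := by
  simp only [red] at h
  cases w with
  | a x => exact Or.inl ⟨x, h.elim id False.elim, rfl⟩
  | b K' j' => simp [rr] at h
  | c K' L' i => simp [rr] at h
  | d K' L' g =>
    simp only [rr, false_or] at h
    obtain ⟨rfl | rfl, rfl, rfl⟩ := h
    · exact Or.inr (Or.inl rfl)
    · exact Or.inr (Or.inr rfl)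

lemma blue_c {K : KT m} {L : LT k} {i : Fin k} {w : Vtx m k} (h : (blue m k).Adj (c K L i) w) :
    w ∈ BL K L ∨ w ∈ ({d K L 0, d K L 1} : Set (Vtx m k)) := by
  simp only [blue] at h
  cases w with
  | a x => simp [bb] at h
  | b K' j' =>
    simp only [bb, or_false] at h
    obtain ⟨rfl, h⟩ := h
    exact Or.inl ⟨j', h, rfl⟩
  | c K' L' i => simp [bb] at h
  | d K' L' g =>
    simp only [bb, false_or] at h
    obtain ⟨rfl | rfl, rfl, rfl⟩ := h
    · exact Or.inr (Or.inl rfl)
    · exact Or.inr (Or.inr rfl)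

lemma red_d {K : KT m} {L : LT k} {g : Fin 4} {w : Vtx m k} : (red m k).Adj (d K L g) w ↔
    ((g = 0 ∨ g = 1) ∧ w ∈ AK K) ∨ ((g = 2 ∨ g = 3) ∧ (w ∈ BL K L ∨ w ∈ CK K L)) ∨
    (g = 0 ∧ (w = d K L 2 ∨ w = d K L 3)) ∨ ((g = 2 ∨ g = 3) ∧ w = d K L 0) := by
  simp only [red]
  cases w with
  | a x => simp [rr, mem_AK, mem_BL, mem_CK]
  | b K' j' =>
    simp only [rr, mem_AK, mem_BL, mem_CK]
    simp
    aesop
  | c K' L' i =>
    simp only [rr, mem_AK, mem_BL, mem_CK]
    simp
    aesop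
  | d K' L' g' =>
    simp only [rr, mem_AK, mem_BL, mem_CK]
    simp
    aesop

lemma blue_d {K : KT m} {L : LT k} {g : Fin 4} {w : Vtx m k} : (blue m k).Adj (d K L g) w ↔
    ((g = 2 ∨ g = 3) ∧ w ∈ AK K) ∨ ((g = 0 ∨ g = 1) ∧ (w ∈ BL K L ∨ w ∈ CK K L)) ∨
    (g = 1 ∧ (w = d K L 0 ∨ w = d K L 2 ∨ w = d K L 3)) ∨
    ((g = 0 ∨ g = 2 ∨ g = 3) ∧ w = d K L 1) := by
  simp only [blue]
  cases w with
  | a x => simp [bb, mem_AK, mem_BL, mem_CK]
  | b K' j' =>
    simp only [bb, mem_AK, mem_BL, mem_CK]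
    simp
    aesop
  | c K' L' i =>
    simp only [bb, mem_AK, mem_BL, mem_CK]
    simp
    aesop
  | d K' L' g' =>
    simp only [bb, mem_AK, mem_BL, mem_CK]
    simp
    aesop

lemma main (hk : 3 ≤ k) (hm : 4 * Nat.card (LT k) < m) (p : Vtx m k → Fin 3) :
    ¬ IsMajority (red m k) (blue m k) p := by
  intro hp
  have hkm : k < m := lt_of_le_of_lt (le_card_LT k) (by omega)
  -- the set `K`
  obtain ⟨i₁, -, K₀, hK₀, hK⟩ := exists_part (fun x => p (a x)) Finset.univ (by simp) m
    (by simp) Finset.univ_nonempty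
  obtain ⟨K, rfl⟩ : ∃ K : KT m, K.1 = K₀ := ⟨⟨K₀, hK₀⟩, rfl⟩
  have hA : ∀ w ∈ (AK K : Set (Vtx m k)), p w = i₁ := by
    rintro _ ⟨x, hx, rfl⟩
    exact hK x hx
  -- level `B`
  have hB : ∀ j, p (b K j) ≠ i₁ := by
    intro j
    refine not_red hp (X := AK K) (Y := Set.range (fun x : LT k × Fin 4 => d K x.1 x.2))
      (fun w hw => ⟨?_, hA w hw⟩) (fun w hw => red_b hw) ?_
    · obtain ⟨x, hx, rfl⟩ := hw
      exact Or.inl hx
    · rw [ncard_AK, ← Set.image_univ]
      refine lt_of_le_of_lt (Set.ncard_image_le (Set.toFinite _)) ?_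
      rw [Set.ncard_univ, Nat.card_prod, Nat.card_eq_fintype_card (α := Fin 4), Fintype.card_fin]
      omega
  obtain ⟨i₂, hi₂, L₀, hL₀, hL⟩ := exists_part (fun x => p (b K x)) (Finset.univ.erase i₁)
    (fun x => by simpa using hB x) k (by simp) (by rw [← Finset.card_pos]; simp)
  obtain ⟨L, rfl⟩ : ∃ L : LT k, L.1 = L₀ := ⟨⟨L₀, hL₀⟩, rfl⟩
  have hi₂₁ : i₂ ≠ i₁ := Finset.ne_of_mem_erase hi₂
  have hBL : ∀ w ∈ BL K L, p w = i₂ := by
    rintro _ ⟨x, hx, rfl⟩
    exact hL x hx
  -- the third part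
  obtain ⟨i₃, hi₃₁, hi₃₂, hi₃⟩ : ∃ i₃ : Fin 3, i₃ ≠ i₁ ∧ i₃ ≠ i₂ ∧ ∀ i, i ≠ i₁ → i ≠ i₂ → i = i₃ := by
    revert hi₂₁
    clear * -
    revert i₁ i₂
    decide
  have two : ∀ v w : Vtx m k, ({v, w} : Set (Vtx m k)).ncard ≤ 2 := fun v w =>
    (Set.ncard_insert_le _ _).trans (by rw [Set.ncard_singleton])
  -- level `C`
  have hCK : ∀ w ∈ CK K L, p w = i₃ := by
    rintro _ ⟨i, rfl⟩
    apply hi₃
    · refine not_red hp (X := AK K) (Y := {d K L 2, d K L 3})
        (fun w hw => ⟨?_, hA w hw⟩) (fun w hw => red_c hw) ?_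
      · obtain ⟨x, hx, rfl⟩ := hw
        exact Or.inl hx
      · rw [ncard_AK]
        exact lt_of_le_of_lt (two _ _) (by omega)
    · refine not_blue hp (X := BL K L) (Y := {d K L 0, d K L 1})
        (fun w hw => ⟨?_, hBL w hw⟩) (fun w hw => blue_c hw) ?_
      · obtain ⟨x, hx, rfl⟩ := hw
        exact Or.inl ⟨rfl, hx⟩
      · rw [ncard_BL]
        exact lt_of_le_of_lt (two _ _) (by omega)
  -- the gadget
  have h0 : p (d K L 0) ≠ i₁ := by
    refine not_red hp (X := AK K) (Y := {d K L 2, d K L 3})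
      (fun w hw => ⟨by rw [red_d]; simp [hw], hA w hw⟩) (fun w hw => ?_) ?_
    · rw [red_d] at hw
      simpa using hw
    · rw [ncard_AK]
      exact lt_of_le_of_lt (two _ _) (by omega)
  have h1 : p (d K L 1) ≠ i₁ := by
    refine not_red hp (X := AK K) (Y := ∅)
      (fun w hw => ⟨by rw [red_d]; simp [hw], hA w hw⟩) (fun w hw => ?_) ?_
    · rw [red_d] at hw
      simpa using hw
    · rw [ncard_AK, Set.ncard_empty]
      omega
  have h23 : ∀ g : Fin 4, g = 2 ∨ g = 3 → p (d K L g) ≠ i₁ := by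
    intro g hg
    have hg1 : g ≠ 1 := by omega
    refine not_blue hp (X := AK K) (Y := {d K L 1})
      (fun w hw => ⟨by rw [blue_d]; simp [hw, hg], hA w hw⟩) (fun w hw => ?_) ?_
    · rw [blue_d] at hw
      have hg0 : g ≠ 0 := by omega
      simp only [hg, hg1, hg0, true_and, false_and, false_or, or_false] at hw
      simpa using hw
    · rw [ncard_AK, Set.ncard_singleton]
      omega
  -- the two parts which are still possible
  have hXY : ∀ i, i ≠ i₁ → ∃ X Y : Set (Vtx m k), (∀ w ∈ X, p w = i) ∧ X.ncard = k ∧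
      Y.ncard = k ∧ (∀ w, (w ∈ BL K L ∨ w ∈ CK K L) ↔ (w ∈ X ∨ w ∈ Y)) := by
    intro i hi
    by_cases h : i = i₂
    · subst h
      exact ⟨BL K L, CK K L, hBL, ncard_BL K L, ncard_CK K L, fun w => Iff.rfl⟩
    · obtain rfl := hi₃ i hi h
      exact ⟨CK K L, BL K L, hCK, ncard_CK K L, ncard_BL K L, fun w => or_comm⟩
  have hnot : ∀ g, ¬ (d K L g ∈ BL K L ∨ d K L g ∈ CK K L) := by
    intro g h
    rcases h with ⟨x, -, hx⟩ | ⟨x, hx⟩ <;> cases hx
  have h01 : p (d K L 1) ≠ p (d K L 0) := by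
    intro h
    obtain ⟨X, Y, hX, hXk, hYk, hXY⟩ := hXY _ h0
    have hn := hnot 1
    rw [hXY, not_or] at hn
    refine not_blue hp (v := d K L 0) (i := p (d K L 0)) (X := insert (d K L 1) X) (Y := Y)
      ?_ ?_ ?_ rfl
    · rintro w (rfl | hw)
      · exact ⟨by rw [blue_d]; simp, h⟩
      · exact ⟨by rw [blue_d, hXY]; simp [hw], hX w hw⟩
    · intro w hw
      rw [blue_d, hXY] at hw
      simp only [Set.mem_insert_iff]
      simp at hw
      tauto
    · rw [Set.ncard_insert_of_notMem hn.1, hXk, hYk]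
      omega
  have h0g : ∀ g : Fin 4, g = 2 ∨ g = 3 → p (d K L g) ≠ p (d K L 0) := by
    intro g hg h
    obtain ⟨X, Y, hX, hXk, hYk, hXY⟩ := hXY _ (h23 g hg)
    have hn := hnot 0
    rw [hXY, not_or] at hn
    refine not_red hp (v := d K L g) (i := p (d K L g)) (X := insert (d K L 0) X) (Y := Y)
      ?_ ?_ ?_ rfl
    · rintro w (rfl | hw)
      · exact ⟨by rw [red_d]; simp [hg], h.symm⟩
      · exact ⟨by rw [red_d, hXY]; simp [hw, hg], hX w hw⟩
    · intro w hw
      rw [red_d, hXY] at hw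
      have hg0 : g ≠ 0 := by omega
      have hg1 : g ≠ 1 := by omega
      simp only [Set.mem_insert_iff]
      simp only [hg0, hg1, false_and, false_or, hg, true_and] at hw
      tauto
    · rw [Set.ncard_insert_of_notMem hn.1, hXk, hYk]
      omega
  have key : ∀ i j x y : Fin 3, x ≠ i → y ≠ i → j ≠ i → x ≠ j → y ≠ j → x = y := by
    intro i j x y; omega
  have e2 : p (d K L 2) = p (d K L 1) :=
    key _ _ _ _ (h23 2 (Or.inl rfl)) h1 h0 (h0g 2 (Or.inl rfl)) h01
  have e3 : p (d K L 3) = p (d K L 1) :=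
    key _ _ _ _ (h23 3 (Or.inr rfl)) h1 h0 (h0g 3 (Or.inr rfl)) h01
  obtain ⟨X, Y, hX, hXk, hYk, hXY⟩ := hXY _ h1
  have hn2 := hnot 2
  rw [hXY, not_or] at hn2
  have hn3 := hnot 3
  rw [hXY, not_or] at hn3
  refine not_blue hp (v := d K L 1) (i := p (d K L 1)) (X := insert (d K L 2)
    (insert (d K L 3) X)) (Y := insert (d K L 0) Y) ?_ ?_ ?_ rfl
  · rintro w (rfl | rfl | hw)
    · exact ⟨by rw [blue_d]; simp, e2⟩
    · exact ⟨by rw [blue_d]; simp, e3⟩
    · exact ⟨by rw [blue_d, hXY]; simp [hw], hX w hw⟩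
  · intro w hw
    rw [blue_d, hXY] at hw
    simp only [Set.mem_insert_iff]
    simp at hw
    tauto
  · have hn : d K L 2 ∉ insert (d K L 3) X := by simp [hn2.1]
    rw [Set.ncard_insert_of_notMem hn, Set.ncard_insert_of_notMem hn3.1, hXk]
    exact lt_of_le_of_lt (Set.ncard_insert_le _ _) (by omega)

/-- For every `k` there is a finite 2-edge-coloured graph, with red graph `R` and blue graph `B`, in
which every vertex has red degree at least `k` and blue degree at least `k`, but which has no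
majority 3-partition. -/
theorem result : ∀ k : ℕ, ∃ (V : Type) (_ : Finite V) (R B : SimpleGraph V), Disjoint R B ∧
    (∀ v, k ≤ {w | R.Adj v w}.ncard ∧ k ≤ {w | B.Adj v w}.ncard) ∧
    ∀ p : V → Fin 3, ¬ IsMajority R B p := by
  intro k
  obtain ⟨l, hl, hkl⟩ : ∃ l, 3 ≤ l ∧ k ≤ l := ⟨max k 3, le_max_right _ _, le_max_left _ _⟩
  refine ⟨Vtx (4 * Nat.card (LT l) + 1) l, inferInstance, red _ l, blue _ l, disj, ?_,
    main hl (by omega)⟩
  intro v
  have h := degrees (m := 4 * Nat.card (LT l) + 1) (k := l)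
    (by have := le_card_LT l; omega) (by omega) v
  exact ⟨hkl.trans h.1, hkl.trans h.2⟩

end Pool.Agent.Results.MP_0e3695_co.NoThreshold
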